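import Pool.Agent.W221.NS.Stm

/-!
# MD-FRAME: the equations in the moving frame
-/

set_option autoImplicit false

open MeasureTheory Set Metric
open scoped ContDiff

namespace Pool.Agent.W61.MD.FRAME

open H459R3.NS W221.NS

noncomputable section

/-! ### Partial derivatives -/

theorem pd_affine (f : V → ℝ) (a : V) (r : ℝ) (x : V) (hf : DifferentiableAt ℝ f (a + r • x))
    (j : Fin 3) : pd j (fun y => f (a + r • y)) x = r * pd j f (a + r • x) := by
  unfold pd
  have h1 : HasFDerivAt (fun y : V => a + r • y) (r • ContinuousLinearMap.id ℝ V) x := by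
    exact ((hasFDerivAt_id x).const_smul r).const_add a
  have h2 := hf.hasFDerivAt.comp x h1
  have h3 : fderiv ℝ (fun y => f (a + r • y)) x =
      (fderiv ℝ f (a + r • x)).comp (r • ContinuousLinearMap.id ℝ V) := h2.fderiv
  rw [h3]
  simp

theorem pd_const_mul (f : V → ℝ) (c : ℝ) (x : V) (hf : DifferentiableAt ℝ f x) (j : Fin 3) :
    pd j (fun y => c * f y) x = c * pd j f x := by
  unfold pd
  have h1 : fderiv ℝ (fun y => c * f y) x = c • fderiv ℝ f x := (hf.hasFDerivAt.const_mul c).fderiv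
  rw [h1]
  simp

theorem pd_sub_const (f : V → ℝ) (c : ℝ) (x : V) (j : Fin 3) :
    pd j (fun y => f y - c) x = pd j f x := by
  unfold pd
  rw [fderiv_sub_const]

theorem pd_add (f g : V → ℝ) (x : V) (hf : DifferentiableAt ℝ f x) (hg : DifferentiableAt ℝ g x)
    (j : Fin 3) : pd j (fun y => f y + g y) x = pd j f x + pd j g x := by
  unfold pd
  have h1 : fderiv ℝ (fun y => f y + g y) x = fderiv ℝ f x + fderiv ℝ g x :=
    (hf.hasFDerivAt.add hg.hasFDerivAt).fderiv
  rw [h1]
  simp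

theorem pd_lin (l : V) (x : V) (j : Fin 3) : pd j (fun y => ∑ i, l i * y i) x = l j := by
  unfold pd
  have h1 : HasFDerivAt (fun y : V => ∑ i, l i * y i)
      (∑ i, (l i) • (ContinuousLinearMap.proj (R := ℝ) (φ := fun _ : Fin 3 => ℝ) i)) x := by
    refine HasFDerivAt.fun_sum fun i _ => ?_
    exact (hasFDerivAt_apply (𝕜 := ℝ) i x).const_mul (l i)
  rw [h1.fderiv]
  simp [Pi.single_apply]

/-- slices of a smooth function of time and space -/
theorem slice_smooth {F : ℝ × V → ℝ} {S : Set ℝ} (hF : ContDiffOn ℝ ∞ F (S ×ˢ univ)) {t : ℝ}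
    (ht : t ∈ S) : ContDiff ℝ ∞ (fun y => F (t, y)) := by
  rw [← contDiffOn_univ]
  exact hF.comp (contDiff_prodMk_right t).contDiffOn (fun y _ => ⟨ht, mem_univ _⟩)

/-- the total derivative along a curve -/
theorem total {F : ℝ × V → ℝ} {t : ℝ} {x : V} (hF : DifferentiableAt ℝ F (t, x)) (X' : V)
    (c : ℝ) :
    fderiv ℝ F (t, x) (c, X') =
      c * deriv (fun s => F (s, x)) t + ∑ j, X' j * pd j (fun y => F (t, y)) x := by
  have h1 : deriv (fun s => F (s, x)) t = fderiv ℝ F (t, x) (1, 0) := by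
    have h2 : HasDerivAt (fun s : ℝ => (s, x)) ((1 : ℝ), (0 : V)) t :=
      (hasDerivAt_id t).prodMk (hasDerivAt_const t x)
    exact (hF.hasFDerivAt.comp_hasDerivAt t h2).deriv
  have h3 : ∀ j, pd j (fun y => F (t, y)) x = fderiv ℝ F (t, x) (0, Pi.single j 1) := by
    intro j
    unfold pd
    have h4 : HasFDerivAt (fun y : V => (t, y)) (ContinuousLinearMap.inr ℝ ℝ V) x :=
      hasFDerivAt_prodMk_right t x
    have h5 : fderiv ℝ (fun y => F (t, y)) x =
        (fderiv ℝ F (t, x)).comp (ContinuousLinearMap.inr ℝ ℝ V) :=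
      (hF.hasFDerivAt.comp x h4).fderiv
    rw [h5]
    simp
  simp only [h1, h3]
  have h6 : ((c, X') : ℝ × V) = c • ((1 : ℝ), (0 : V)) +
      ∑ j, X' j • ((0 : ℝ), (Pi.single j (1 : ℝ) : V)) := by
    refine Prod.ext ?_ ?_
    · simp [Prod.fst_sum]
    · simp only [Prod.snd_add, Prod.smul_snd, smul_zero, zero_add, Prod.snd_sum]
      ext i
      simp [Finset.sum_apply, Pi.single_apply]
  rw [h6, map_add, map_smul, map_sum]
  simp only [map_smul, smul_eq_mul]

/-! ### The weight -/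

theorem th_cont : Continuous th := by
  unfold th
  exact bmp.continuous_normed

theorem th_supp : HasCompactSupport th := by
  have : th = bmp.normed volume := rfl
  rw [this]
  exact bmp.hasCompactSupport_normed

theorem th_int : ∫ z, th z = 1 := by
  unfold th
  exact bmp.integral_normed

/-! ### The theorem -/

theorem t_FRAME : S_FRAME := by
  intro T u p hu r s hr hs hsT X hX hX'
  -- the time interval
  have hτ : ∀ t ∈ Ioo (-1 : ℝ) 0, s + r ^ 2 * t ∈ Ioo (s - r ^ 2) s := by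
    intro t ht
    have hr2 : 0 < r ^ 2 := by positivity
    constructor
    · nlinarith [ht.1]
    · nlinarith [ht.2]
  have hsub : ∀ τ ∈ Ioo (s - r ^ 2) s, τ ∈ Ioo 0 T := by
    intro τ h
    exact ⟨by linarith [h.1], by linarith [h.2]⟩
  have hsub' : ∀ τ ∈ Ioo (s - r ^ 2) s, τ ∈ Ico 0 T := fun τ h =>
    ⟨(hsub τ h).1.le, (hsub τ h).2⟩
  -- smooth components
  have hU : ∀ i, ContDiffOn ℝ ∞ (fun z : ℝ × V => u z.1 z.2 i) (Ioo 0 T ×ˢ univ) := by
    intro i
    have h1 := (contDiffOn_pi.1 hu.smooth_u) i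
    exact h1.mono (prod_mono Ioo_subset_Ico_self (subset_refl _))
  have hP : ContDiffOn ℝ ∞ (fun z : ℝ × V => p z.1 z.2) (Ioo 0 T ×ˢ univ) :=
    hu.smooth_p.mono (prod_mono Ioo_subset_Ico_self (subset_refl _))
  have hopen : IsOpen (Ioo 0 T ×ˢ (univ : Set V)) := isOpen_Ioo.prod isOpen_univ
  have hXi : ∀ i, ContDiffOn ℝ ∞ (fun τ => X τ i) (Ioo (s - r ^ 2) s) := fun i =>
    (contDiffOn_pi.1 hX) i
  have hX1 : ∀ i, ContDiffOn ℝ ∞ (deriv (fun τ => X τ i)) (Ioo (s - r ^ 2) s) := fun i =>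
    (hXi i).deriv_of_isOpen isOpen_Ioo (by simp)
  have hX2 : ∀ i, ContDiffOn ℝ ∞ (deriv (deriv (fun τ => X τ i))) (Ioo (s - r ^ 2) s) := fun i =>
    (hX1 i).deriv_of_isOpen isOpen_Ioo (by simp)
  -- the change of variables
  have hA : ContDiff ℝ ∞ (fun z : ℝ × V => s + r ^ 2 * z.1) := by fun_prop
  have hAm : MapsTo (fun z : ℝ × V => s + r ^ 2 * z.1) (Ioo (-1) 0 ×ˢ univ)
      (Ioo (s - r ^ 2) s) := fun z hz => hτ z.1 hz.1
  have hΨ : ContDiffOn ℝ ∞ (fun z : ℝ × V => (s + r ^ 2 * z.1, X (s + r ^ 2 * z.1) + r • z.2))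
      (Ioo (-1) 0 ×ˢ univ) := by
    refine hA.contDiffOn.prodMk ?_
    exact (hX.comp hA.contDiffOn hAm).add (by fun_prop)
  have hΨm : MapsTo (fun z : ℝ × V => (s + r ^ 2 * z.1, X (s + r ^ 2 * z.1) + r • z.2))
      (Ioo (-1) 0 ×ˢ univ) (Ioo 0 T ×ˢ univ) := fun z hz => ⟨hsub _ (hτ z.1 hz.1), mem_univ _⟩
  -- slices
  have hus : ∀ τ ∈ Ioo 0 T, ∀ i, ContDiff ℝ ∞ (fun y => u τ y i) := fun τ h i =>
    slice_smooth (F := fun z : ℝ × V => u z.1 z.2 i) (hU i) h
  have hps : ∀ τ ∈ Ioo 0 T, ContDiff ℝ ∞ (p τ) := fun τ h =>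
    slice_smooth (F := fun z : ℝ × V => p z.1 z.2) hP h
  have hdiff : ∀ {f : V → ℝ}, ContDiff ℝ ∞ f → ∀ x, DifferentiableAt ℝ f x := fun hf x =>
    (hf.differentiable (by simp)) x
  have hpdsm : ∀ {f : V → ℝ}, ContDiff ℝ ∞ f → ∀ j, ContDiff ℝ ∞ (pd j f) := by
    intro f hf j
    unfold pd
    exact (hf.fderiv_right (m := ∞) (by simp)).clm_apply contDiff_const
  -- first derivatives in the moving frame
  have hpv : ∀ t ∈ Ioo (-1 : ℝ) 0, ∀ i j x, pd j (fun y => frv r s X u t y i) x =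
      r ^ 2 * pd j (fun y => u (s + r ^ 2 * t) y i) (X (s + r ^ 2 * t) + r • x) := by
    intro t ht i j x
    have h1 := hus _ (hsub _ (hτ t ht)) i
    have e1 : (fun y => frv r s X u t y i) = fun y =>
        r * ((fun y => u (s + r ^ 2 * t) y i) (X (s + r ^ 2 * t) + r • y)
          - deriv (fun τ => X τ i) (s + r ^ 2 * t)) := rfl
    rw [e1, pd_const_mul, pd_sub_const, pd_affine _ _ _ _ (hdiff h1 _)]
    · ring
    · refine DifferentiableAt.sub_const ?_ _
      exact (hdiff h1 _).comp x (by fun_prop)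
  refine ⟨?_, ?_, ?_, ?_, ?_⟩
  · -- smoothness of v
    rw [contDiffOn_pi]
    intro i
    have h1 := (hU i).comp hΨ hΨm
    have h2 := (hX1 i).comp hA.contDiffOn hAm
    exact contDiffOn_const.mul (h1.sub h2)
  · -- smoothness of q
    have h1 := hP.comp hΨ hΨm
    have h2 : ∀ i, ContDiffOn ℝ ∞ (fun z : ℝ × V =>
        r ^ 3 * deriv (deriv (fun τ => X τ i)) (s + r ^ 2 * z.1) * z.2 i)
        (Ioo (-1) 0 ×ˢ univ) := by
      intro i
      have h3 := (hX2 i).comp hA.contDiffOn hAm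
      refine (contDiffOn_const.mul h3).mul ?_
      fun_prop
    exact (contDiffOn_const.mul h1).add (ContDiffOn.sum fun i _ => h2 i)
  · -- divergence
    intro t ht x
    simp only [hpv t ht]
    rw [← Finset.mul_sum, hu.divfree _ (hsub' _ (hτ t ht)), mul_zero]
  · -- momentum
    intro t ht x i
    set τ := s + r ^ 2 * t with hτdef
    have hτ1 : τ ∈ Ioo (s - r ^ 2) s := hτ t ht
    have hτ2 : τ ∈ Ioo 0 T := hsub _ hτ1
    have hui := hus τ hτ2 i
    set Y : V := X τ + r • x with hY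
    have hFd : DifferentiableAt ℝ (fun z : ℝ × V => u z.1 z.2 i) (τ, Y) :=
      ((hU i).contDiffAt (hopen.mem_nhds ⟨hτ2, mem_univ _⟩)).differentiableAt (by simp)
    have hXd : HasDerivAt X (mol r u τ (X τ)) τ := hX' τ hτ1
    have hXc : ∀ j, deriv (fun τ => X τ j) τ = mol r u τ (X τ) j := fun j =>
      ((hasDerivAt_pi.1 hXd) j).deriv
    have hX1d : DifferentiableAt ℝ (deriv (fun τ => X τ i)) τ :=
      ((hX1 i).contDiffAt (isOpen_Ioo.mem_nhds hτ1)).differentiableAt (by simp)
    have hAd : HasDerivAt (fun t' : ℝ => s + r ^ 2 * t') (r ^ 2) t := by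
      have := ((hasDerivAt_id t).const_mul (r ^ 2)).const_add s
      simpa using this
    -- the time derivative
    have hcurve : HasDerivAt (fun t' : ℝ => (s + r ^ 2 * t', X (s + r ^ 2 * t') + r • x))
        (r ^ 2, r ^ 2 • mol r u τ (X τ)) t := by
      refine hAd.prodMk ?_
      have h1 : HasDerivAt (fun t' : ℝ => X (s + r ^ 2 * t')) (r ^ 2 • mol r u τ (X τ)) t :=
        HasDerivAt.scomp t hXd hAd
      exact h1.add_const _
    have hd1 : HasDerivAt (fun t' : ℝ => u (s + r ^ 2 * t') (X (s + r ^ 2 * t') + r • x) i)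
        (fderiv ℝ (fun z : ℝ × V => u z.1 z.2 i) (τ, Y) (r ^ 2, r ^ 2 • mol r u τ (X τ))) t := by
      have h0 : HasFDerivAt (fun z : ℝ × V => u z.1 z.2 i)
          (fderiv ℝ (fun z : ℝ × V => u z.1 z.2 i) (τ, Y))
          ((fun t' : ℝ => (s + r ^ 2 * t', X (s + r ^ 2 * t') + r • x)) t) := hFd.hasFDerivAt
      exact h0.comp_hasDerivAt t hcurve
    rw [total hFd] at hd1
    have hd2 : HasDerivAt (fun t' : ℝ => deriv (fun τ => X τ i) (s + r ^ 2 * t'))
        (deriv (deriv (fun τ => X τ i)) τ * r ^ 2) t := by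
      have h0 : HasDerivAt (deriv (fun τ => X τ i)) (deriv (deriv (fun τ => X τ i)) τ)
          ((fun t' : ℝ => s + r ^ 2 * t') t) := hX1d.hasDerivAt
      exact h0.comp t hAd
    have hd3 : deriv (fun s' => frv r s X u s' x i) t =
        r * ((r ^ 2 * deriv (fun s => u s Y i) τ + ∑ j, (r ^ 2 • mol r u τ (X τ)) j *
          pd j (fun y => u τ y i) Y) - deriv (deriv (fun τ => X τ i)) τ * r ^ 2) :=
      ((hd1.sub hd2).const_mul r).deriv
    -- second derivatives
    have hpv2 : ∀ j, pd j (pd j (fun y => frv r s X u t y i)) x =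
        r ^ 3 * pd j (pd j (fun y => u τ y i)) Y := by
      intro j
      have e1 : pd j (fun y => frv r s X u t y i) = fun x =>
          r ^ 2 * (pd j (fun y => u τ y i)) (X τ + r • x) := funext fun x => hpv t ht i j x
      have h2 := hpdsm hui j
      rw [e1, pd_const_mul, pd_affine _ _ _ _ (hdiff h2 _)]
      · ring
      · exact (hdiff h2 _).comp x (by fun_prop)
    -- the pressure
    have hpq : pd i (frq r s X p t) x = r ^ 3 * pd i (p τ) Y +
        r ^ 3 * deriv (deriv (fun τ => X τ i)) τ := by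
      have h1 := hps τ hτ2
      have e1 : frq r s X p t = fun y => r ^ 2 * (p τ) (X τ + r • y) +
          ∑ i, (fun i => r ^ 3 * deriv (deriv (fun τ => X τ i)) τ) i * y i := rfl
      rw [e1, pd_add, pd_const_mul, pd_affine _ _ _ _ (hdiff h1 _), pd_lin]
      · ring
      · exact (hdiff h1 _).comp x (by fun_prop)
      · exact ((hdiff h1 _).comp x (by fun_prop)).const_mul _
      · fun_prop
    have hmom := hu.momentum τ hτ2 Y i
    rw [hd3, hpq]
    simp only [hpv t ht, hpv2]
    rw [← Finset.mul_sum]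
    have e5 : ∑ j, (r ^ 2 • mol r u τ (X τ)) j * pd j (fun y => u τ y i) Y =
        r ^ 2 * ∑ j, mol r u τ (X τ) j * pd j (fun y => u τ y i) Y := by
      rw [Finset.mul_sum]
      refine Finset.sum_congr rfl fun j _ => ?_
      rw [Pi.smul_apply, smul_eq_mul]
      ring
    have e6 : ∑ j, frv r s X u t x j * (r ^ 2 * pd j (fun y => u (s + r ^ 2 * t) y i)
        (X (s + r ^ 2 * t) + r • x)) = r ^ 3 * ∑ j, u τ Y j * pd j (fun y => u τ y i) Y -
        r ^ 3 * ∑ j, mol r u τ (X τ) j * pd j (fun y => u τ y i) Y := by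
      rw [Finset.mul_sum, Finset.mul_sum, ← Finset.sum_sub_distrib]
      refine Finset.sum_congr rfl fun j _ => ?_
      have e7 : frv r s X u t x j = r * (u τ Y j - mol r u τ (X τ) j) := by
        show r * (u τ Y j - deriv (fun τ => X τ j) τ) = _
        rw [hXc]
      rw [e7]
      ring
    rw [e5, e6]
    linear_combination r ^ 3 * hmom
  · -- mean
    intro t ht i
    set τ := s + r ^ 2 * t with hτdef
    have hτ1 : τ ∈ Ioo (s - r ^ 2) s := hτ t ht
    have hτ2 : τ ∈ Ioo 0 T := hsub _ hτ1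
    have hui := hus τ hτ2 i
    have hXd : HasDerivAt X (mol r u τ (X τ)) τ := hX' τ hτ1
    have hXc : deriv (fun τ => X τ i) τ = mol r u τ (X τ) i := ((hasDerivAt_pi.1 hXd) i).deriv
    have hc : Continuous (fun z => u τ (X τ + r • z) i) :=
      hui.continuous.comp (by fun_prop)
    have i1 : Integrable (fun z => th z * u τ (X τ + r • z) i) := by
      refine Continuous.integrable_of_hasCompactSupport (th_cont.mul hc) ?_
      exact th_supp.mul_right
    have i2 : Integrable th := th_cont.integrable_of_hasCompactSupport th_supp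
    have e1 : ∀ z, th z * frv r s X u t z i =
        r * (th z * u τ (X τ + r • z) i) - (r * mol r u τ (X τ) i) * th z := by
      intro z
      show th z * (r * (u τ (X τ + r • z) i - deriv (fun τ => X τ i) τ)) = _
      rw [hXc]
      ring
    simp only [e1]
    rw [integral_sub (i1.const_mul r) (i2.const_mul _), integral_const_mul, integral_const_mul,
      th_int]
    show r * mol r u τ (X τ) i - _ = 0
    ring

end

end Pool.Agent.W61.MD.FRAME
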